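import Mathlib

set_option linter.unusedVariables false

namespace Pool.Agent.Results.MP_66b48b_ag.AbelianQuotients

open scoped ComplexConjugate NNReal

/-- Sesquilinear forms on a complex vector space (conjugate linear in the first variable). -/
abbrev Form (V : Type*) [AddCommGroup V] [Module ℂ V] := V →ₗ⋆[ℂ] V →ₗ[ℂ] ℂ

variable {V : Type*} [AddCommGroup V] [Module ℂ V]

/-- Positive semidefinite Hermitian forms. -/
def IsPsd (H : Form V) : Prop := (∀ x y, H y x = conj (H x y)) ∧ ∀ x, 0 ≤ (H x x).re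

/-- The imaginary part takes integral values on `L`. -/
def IsIntegral (L : AddSubgroup V) (H : Form V) : Prop :=
  ∀ x ∈ L, ∀ y ∈ L, ∃ n : ℤ, (H x y).im = n

/-- `H` is a nonnegative real combination of integral positive semidefinite forms. -/
def IsEff (L : AddSubgroup V) (H : Form V) : Prop :=
  ∃ (n : ℕ) (a : Fin n → ℝ) (P : Fin n → Form V),
    (∀ j, 0 ≤ a j ∧ IsPsd (P j) ∧ IsIntegral L (P j)) ∧ H = ∑ j, (a j : ℂ) • P j

/-- `s` is a (complex) reflection: `s ≠ 1` and `s - 1` has rank one. -/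
def IsReflection (s : V ≃ₗ[ℂ] V) : Prop :=
  s ≠ 1 ∧ ∃ a : V, ∀ x, ∃ c : ℂ, s x - x = c • a

/-- Invariance under a group of linear automorphisms. -/
def IsInv (G : Subgroup (V ≃ₗ[ℂ] V)) (H : Form V) : Prop :=
  ∀ g ∈ G, ∀ x y, H (g x) (g y) = H x y

/-- `R` is a nonnegative real combination of integral psd forms whose kernels are the fixed
hyperplanes of reflections in `G`. -/
def IsRam (L : AddSubgroup V) (G : Subgroup (V ≃ₗ[ℂ] V)) (R : Form V) : Prop :=
  ∃ (S : Finset (V ≃ₗ[ℂ] V)) (r : (V ≃ₗ[ℂ] V) → ℝ) (h : (V ≃ₗ[ℂ] V) → Form V),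
    (∀ s ∈ S, s ∈ G ∧ IsReflection s ∧ 0 ≤ r s ∧ IsPsd (h s) ∧ IsIntegral L (h s) ∧
      ∀ x, h s x = 0 ↔ s x = x) ∧
    R = ∑ s ∈ S, (r s : ℂ) • h s

theorem psd_eq_zero {H : Form V} (hH : IsPsd H) {x : V} (hx : (H x x).re = 0) : H x = 0 := by
  ext y
  simp only [LinearMap.zero_apply]
  by_contra hne
  -- test with y + c x
  have key : ∀ t : ℝ, 0 ≤ (H y y).re - 2 * t * Complex.normSq (H x y) := by
    intro t
    have h1 := hH.2 (y - (t * H x y) • x)
    have hxx : H x x = 0 := by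
      apply Complex.ext
      · simpa using hx
      · have := hH.1 x x
        have h2 := congrArg Complex.im this
        simp only [Complex.conj_im] at h2
        simp only [Complex.zero_im]
        linarith
    have hyx : H y x = conj (H x y) := hH.1 x y
    simp only [map_sub, LinearMap.sub_apply, map_smulₛₗ, LinearMap.smul_apply, smul_eq_mul,
      hxx, hyx, map_mul, Complex.conj_ofReal, RingHom.id_apply] at h1
    have e : (H y y - (t : ℂ) * H x y * conj (H x y) -
        ((t : ℂ) * conj (H x y) * H x y - (t : ℂ) * conj (H x y) * ((t : ℂ) * H x y * 0))).re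
        = (H y y).re - 2 * t * Complex.normSq (H x y) := by
      have : (t : ℂ) * H x y * conj (H x y) = ((t * Complex.normSq (H x y) : ℝ) : ℂ) := by
        rw [mul_assoc, Complex.mul_conj]; push_cast; ring
      have h3 : (t : ℂ) * conj (H x y) * H x y = ((t * Complex.normSq (H x y) : ℝ) : ℂ) := by
        rw [mul_assoc, mul_comm (conj (H x y)), Complex.mul_conj]; push_cast; ring
      rw [this, h3]
      simp only [mul_zero, sub_zero, Complex.sub_re, Complex.ofReal_re]
      ring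
    rw [← e]
    refine h1.trans (le_of_eq ?_)
    congr 1
    ring
  have hpos : 0 < Complex.normSq (H x y) := Complex.normSq_pos.2 hne
  have := key (((H y y).re + 1) / (2 * Complex.normSq (H x y)))
  have e2 : 2 * (((H y y).re + 1) / (2 * Complex.normSq (H x y))) * Complex.normSq (H x y)
      = (H y y).re + 1 := by
    field_simp
  rw [e2] at this
  linarith

theorem psd_self_im {H : Form V} (hH : IsPsd H) (x : V) : (H x x).im = 0 := by
  have := congrArg Complex.im (hH.1 x x)
  simp only [Complex.conj_im] at this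
  linarith

theorem isEff_zero (L : AddSubgroup V) : IsEff L (0 : Form V) :=
  ⟨0, Fin.elim0, Fin.elim0, fun j => j.elim0, by simp⟩

theorem isEff_add {L : AddSubgroup V} {A B : Form V} (hA : IsEff L A) (hB : IsEff L B) :
    IsEff L (A + B) := by
  obtain ⟨n, a, P, h1, rfl⟩ := hA
  obtain ⟨m, b, Q, h2, rfl⟩ := hB
  refine ⟨n + m, Fin.append a b, Fin.append P Q, fun j => ?_, ?_⟩
  · refine Fin.addCases (fun i => ?_) (fun i => ?_) j
    · simpa using h1 i
    · simpa using h2 i
  · simp [Fin.sum_univ_add]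

theorem isEff_smul {L : AddSubgroup V} {A : Form V} (hA : IsEff L A) {c : ℝ} (hc : 0 ≤ c) :
    IsEff L ((c : ℂ) • A) := by
  obtain ⟨n, a, P, h1, rfl⟩ := hA
  refine ⟨n, fun j => c * a j, P, fun j => ⟨mul_nonneg hc (h1 j).1, (h1 j).2⟩, ?_⟩
  rw [Finset.smul_sum]
  refine Finset.sum_congr rfl fun j _ => ?_
  rw [smul_smul]; push_cast; rfl

theorem isEff_of {L : AddSubgroup V} {A : Form V} (h1 : IsPsd A) (h2 : IsIntegral L A) :
    IsEff L A :=
  ⟨1, fun _ => 1, fun _ => A, fun _ => ⟨zero_le_one, h1, h2⟩, by simp⟩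

theorem isEff_sum {L : AddSubgroup V} {ι : Type*} (S : Finset ι) (F : ι → Form V)
    (h : ∀ s ∈ S, IsEff L (F s)) : IsEff L (∑ s ∈ S, F s) := by
  classical
  induction S using Finset.induction_on with
  | empty => simpa using isEff_zero L
  | insert a S ha ih =>
    rw [Finset.sum_insert ha]
    exact isEff_add (h a (Finset.mem_insert_self a S))
      (ih fun s hs => h s (Finset.mem_insert_of_mem hs))

theorem isPsd_add {A B : Form V} (hA : IsPsd A) (hB : IsPsd B) : IsPsd (A + B) := by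
  refine ⟨fun x y => ?_, fun x => ?_⟩
  · simp only [LinearMap.add_apply, map_add, hA.1 x y, hB.1 x y]
  · simp only [LinearMap.add_apply, Complex.add_re]
    exact add_nonneg (hA.2 x) (hB.2 x)

theorem isPsd_smul {A : Form V} (hA : IsPsd A) {c : ℝ} (hc : 0 ≤ c) : IsPsd ((c : ℂ) • A) := by
  refine ⟨fun x y => ?_, fun x => ?_⟩
  · simp only [LinearMap.smul_apply, smul_eq_mul, hA.1 x y, map_mul, Complex.conj_ofReal]
  · simp only [LinearMap.smul_apply, smul_eq_mul, Complex.re_ofReal_mul]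
    exact mul_nonneg hc (hA.2 x)

theorem isPsd_zero : IsPsd (0 : Form V) := ⟨fun x y => by simp, fun x => by simp⟩

theorem isPsd_sum {ι : Type*} (S : Finset ι) (F : ι → Form V)
    (h : ∀ s ∈ S, IsPsd (F s)) : IsPsd (∑ s ∈ S, F s) := by
  classical
  induction S using Finset.induction_on with
  | empty => simpa using isPsd_zero
  | insert a S ha ih =>
    rw [Finset.sum_insert ha]
    exact isPsd_add (h a (Finset.mem_insert_self a S))
      (ih fun s hs => h s (Finset.mem_insert_of_mem hs))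

theorem isEff_psd {L : AddSubgroup V} {H : Form V} (hH : IsEff L H) : IsPsd H := by
  obtain ⟨n, a, P, h1, rfl⟩ := hH
  exact isPsd_sum _ _ fun j _ => isPsd_smul (h1 j).2.1 (h1 j).1

section main

variable {G : Subgroup (V ≃ₗ[ℂ] V)}

/-- A reflection of finite order moves its root. -/
theorem root_moved [Finite G] {s : V ≃ₗ[ℂ] V} (hs : s ∈ G) {a : V}
    (ha : ∀ x, ∃ c : ℂ, s x - x = c • a) (h1 : s ≠ 1) : ∃ c : ℂ, c ≠ 0 ∧ s a - a = c • a := by
  obtain ⟨c, hc⟩ := ha a
  refine ⟨c, fun hc0 => h1 ?_, hc⟩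
  subst hc0
  have hsa : s a = a := by
    rw [zero_smul, sub_eq_zero] at hc; exact hc
  obtain ⟨n, hn, hsn⟩ : ∃ n : ℕ, 0 < n ∧ s ^ n = 1 := by
    refine ⟨Nat.card G, Nat.card_pos, ?_⟩
    exact congrArg Subtype.val (pow_card_eq_one' (x := (⟨s, hs⟩ : G)))
  ext x
  obtain ⟨d, hd⟩ := ha x
  have hpow : ∀ k : ℕ, (s ^ k) x = x + (k : ℂ) • d • a := by
    intro k
    induction k with
    | zero => simp
    | succ k ih =>
      rw [pow_succ', LinearEquiv.mul_apply, ih, map_add, map_smul, map_smul, hsa]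
      have : s x = x + d • a := by rw [← hd]; abel
      rw [this]; push_cast; module
  have := hpow n
  rw [hsn] at this
  have h0 : (n : ℂ) • d • a = 0 := by
    have h2 : x = x + (n : ℂ) • d • a := by simpa using this
    exact (left_eq_add.1 h2)
  have hn0 : (n : ℂ) ≠ 0 := by exact_mod_cast hn.ne'
  have h3 : d • a = 0 := (smul_eq_zero.1 h0).resolve_left hn0
  have h4 : s x - x = 0 := by rw [hd, h3]
  simpa using sub_eq_zero.1 h4

/-- Data of one reflection relative to an invariant Hermitian form. -/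
theorem inv_fixed {Q : Form V} (hQ : ∀ x y, Q y x = conj (Q x y)) {s : V ≃ₗ[ℂ] V}
    (hinv : ∀ x y, Q (s x) (s y) = Q x y) {a : V} {c : ℂ} (hc : c ≠ 0) (hsa : s a - a = c • a)
    {f : V} (hf : s f = f) : Q f a = 0 ∧ Q a f = 0 := by
  have h1 : Q f (s a - a) = 0 := by
    rw [map_sub, sub_eq_zero]
    conv_lhs => rw [← hf]
    exact hinv f a
  rw [hsa, map_smul, smul_eq_mul] at h1
  have h2 : Q f a = 0 := (mul_eq_zero.1 h1).resolve_left hc
  exact ⟨h2, by rw [hQ f a, h2, map_zero]⟩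

theorem decomp {s : V ≃ₗ[ℂ] V} {a : V} (ha : ∀ x, ∃ c : ℂ, s x - x = c • a) {c : ℂ} (hc : c ≠ 0)
    (hsa : s a - a = c • a) (x : V) : ∃ (l : ℂ) (f : V), x = l • a + f ∧ s f = f := by
  obtain ⟨d, hd⟩ := ha x
  refine ⟨d / c, x - (d / c) • a, by abel, ?_⟩
  have h1 : s x = x + d • a := by rw [← hd]; abel
  have h2 : s a = a + c • a := by rw [← hsa]; abel
  rw [map_sub, map_smul, h1, h2, smul_add, smul_smul, div_mul_cancel₀ d hc]
  abel

/-- The sum over the group generated by the reflections. -/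
noncomputable def avg (W : Subgroup (V ≃ₗ[ℂ] V)) [Fintype W] : V →ₗ[ℂ] V :=
  ∑ w : W, ((w : V ≃ₗ[ℂ] V) : V →ₗ[ℂ] V)

theorem avg_apply (W : Subgroup (V ≃ₗ[ℂ] V)) [Fintype W] (x : V) :
    avg W x = ∑ w : W, (w : V ≃ₗ[ℂ] V) x := by
  simp [avg]

theorem avg_fixed (W : Subgroup (V ≃ₗ[ℂ] V)) [Fintype W] {g : V ≃ₗ[ℂ] V} (hg : g ∈ W) (x : V) :
    g (avg W x) = avg W x := by
  rw [avg_apply, map_sum]
  exact Fintype.sum_equiv (Equiv.mulLeft (⟨g, hg⟩ : W)) _ _ fun w => by simp

theorem avg_mem {L : AddSubgroup V} (W : Subgroup (V ≃ₗ[ℂ] V)) [Fintype W]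
    (hW : ∀ w ∈ W, ∀ x ∈ L, w x ∈ L) {x : V} (hx : x ∈ L) : avg W x ∈ L := by
  rw [avg_apply]
  exact AddSubgroup.sum_mem _ fun w _ => hW w w.2 x hx

theorem cross {W : Subgroup (V ≃ₗ[ℂ] V)} [Fintype W] {P : Form V}
    (hP : ∀ w ∈ W, ∀ x y, P (w x) (w y) = P x y) (x y : V) :
    P (avg W x) (avg W y) = (Fintype.card W : ℂ) * P (avg W x) y := by
  rw [avg_apply W y, map_sum]
  have : ∀ w : W, P (avg W x) ((w : V ≃ₗ[ℂ] V) y) = P (avg W x) y := fun w => by
    conv_lhs => rw [← avg_fixed W w.2 x]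
    exact hP w w.2 _ _
  simp [this, Finset.sum_const, Finset.card_univ]

/-- `N x - avg x` lies in the span of the roots. -/
theorem sub_mem_span {S : Set (V ≃ₗ[ℂ] V)} {w : V ≃ₗ[ℂ] V} (hw : w ∈ Subgroup.closure S) (x : V) :
    w x - x ∈ Submodule.span ℂ {z : V | ∃ s ∈ S, ∃ y, z = s y - y} := by
  induction hw using Subgroup.closure_induction generalizing x with
  | mem s hs => exact Submodule.subset_span ⟨s, hs, x, rfl⟩
  | one => simp
  | mul a b _ _ iha ihb =>
    have : (a * b) x - x = (a (b x) - b x) + (b x - x) := by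
      rw [LinearEquiv.mul_apply]; abel
    rw [this]
    exact Submodule.add_mem _ (iha _) (ihb _)
  | inv a _ iha =>
    have h := iha (a⁻¹ x)
    have e : a (a⁻¹ x) = x := by
      rw [← LinearEquiv.mul_apply, mul_inv_cancel]; rfl
    rw [e] at h
    have := Submodule.neg_mem _ h
    simpa using this

end main

/-- For every finite group `G` of linear automorphisms of `V` preserving `L`: if `P` is a
`G`-invariant element of the effective cone, `R` a `G`-invariant combination of reflection forms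
and `P - R` is positive semidefinite, then `P - R` lies in the effective cone. -/
theorem result {V : Type*} [AddCommGroup V] [Module ℂ V] (L : AddSubgroup V)
    (G : Subgroup (V ≃ₗ[ℂ] V)) [Finite G] (hG : ∀ g ∈ G, ∀ x ∈ L, g x ∈ L)
    (P R : Form V) (hP : IsEff L P) (hR : IsRam L G R) (hPG : IsInv G P) (hRG : IsInv G R)
    (hH : IsPsd (P - R)) : IsEff L (P - R) := by
  classical
  obtain ⟨S₀, r, h, hS₀, hRe₀⟩ := hR
  -- discard the zero coefficients
  obtain ⟨S, hS, hRe⟩ : ∃ S : Finset (V ≃ₗ[ℂ] V),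
      (∀ s ∈ S, s ∈ G ∧ IsReflection s ∧ 0 < r s ∧ IsPsd (h s) ∧ IsIntegral L (h s) ∧
        ∀ x, h s x = 0 ↔ s x = x) ∧ R = ∑ s ∈ S, (r s : ℂ) • h s := by
    refine ⟨S₀.filter fun s => r s ≠ 0, fun s hs => ?_, ?_⟩
    · rw [Finset.mem_filter] at hs
      obtain ⟨h1, h2, h3, h4⟩ := hS₀ s hs.1
      exact ⟨h1, h2, lt_of_le_of_ne h3 (Ne.symm hs.2), h4⟩
    · rw [hRe₀]
      symm
      refine Finset.sum_subset (Finset.filter_subset _ _) fun s hs hn => ?_
      have : r s = 0 := by
        by_contra hne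
        exact hn (Finset.mem_filter.2 ⟨hs, hne⟩)
      simp [this]
  clear hS₀ hRe₀
  have hPpsd : IsPsd P := isEff_psd hP
  have hRpsd : IsPsd R := by
    rw [hRe]
    exact isPsd_sum _ _ fun s hs => isPsd_smul (hS s hs).2.2.2.1 (hS s hs).2.2.1.le
  -- the group generated by the reflections
  let W : Subgroup (V ≃ₗ[ℂ] V) := Subgroup.closure (S : Set (V ≃ₗ[ℂ] V))
  have hWG : W ≤ G := (Subgroup.closure_le G).2 fun s hs => (hS s hs).1
  have : Finite W := Set.Finite.subset (Set.toFinite (G : Set (V ≃ₗ[ℂ] V))) hWG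
  have : Fintype W := Fintype.ofFinite W
  have hPW : ∀ w ∈ W, ∀ x y, P (w x) (w y) = P x y := fun w hw => hPG w (hWG hw)
  have hWL : ∀ w ∈ W, ∀ x ∈ L, w x ∈ L := fun w hw => hG w (hWG hw)
  set N : ℂ := (Fintype.card W : ℂ) with hN
  have hN0 : N ≠ 0 := by rw [hN]; exact_mod_cast Fintype.card_ne_zero
  -- roots
  choose! root hroot using fun s (hs : s ∈ S) => (hS s hs).2.1.2
  have hmoved : ∀ s ∈ S, ∃ c : ℂ, c ≠ 0 ∧ s (root s) - root s = c • root s := fun s hs =>
    root_moved (hS s hs).1 (hroot s hs) (hS s hs).2.1.1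
  have hdec : ∀ s ∈ S, ∀ x, ∃ (l : ℂ) (f : V), x = l • root s + f ∧ s f = f := fun s hs => by
    obtain ⟨c, hc, hca⟩ := hmoved s hs
    exact decomp (hroot s hs) hc hca
  have hPf : ∀ s ∈ S, ∀ f, s f = f → P f (root s) = 0 ∧ P (root s) f = 0 := fun s hs f hf => by
    obtain ⟨c, hc, hca⟩ := hmoved s hs
    exact inv_fixed hPpsd.1 (hPG s (hS s hs).1) hc hca hf
  have hRf : ∀ s ∈ S, ∀ f, s f = f → R f (root s) = 0 ∧ R (root s) f = 0 := fun s hs f hf => by
    obtain ⟨c, hc, hca⟩ := hmoved s hs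
    exact inv_fixed hRpsd.1 (hRG s (hS s hs).1) hc hca hf
  have hhf : ∀ s ∈ S, ∀ f, s f = f → ∀ y, h s f y = 0 ∧ h s y f = 0 := fun s hs f hf y => by
    have h1 : h s f = 0 := ((hS s hs).2.2.2.2.2 f).2 hf
    have h2 : h s f y = 0 := by rw [h1]; rfl
    exact ⟨h2, by rw [(hS s hs).2.2.2.1.1 f y, h2, map_zero]⟩
  -- positivity of `R` at the roots
  have hRpos : ∀ s ∈ S, 0 < (R (root s) (root s)).re := fun s hs => by
    have h1 : h s (root s) ≠ 0 := by
      intro h0
      have := ((hS s hs).2.2.2.2.2 (root s)).1 h0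
      obtain ⟨c, hc, hca⟩ := hmoved s hs
      rw [this, sub_self] at hca
      have h2 : root s = 0 := (smul_eq_zero.1 hca.symm).resolve_left hc
      apply (hS s hs).2.1.1
      ext x
      obtain ⟨d, hd⟩ := hroot s hs x
      rw [h2, smul_zero, sub_eq_zero] at hd
      simpa using hd
    have h2 : 0 < (h s (root s) (root s)).re := by
      refine lt_of_le_of_ne ((hS s hs).2.2.2.1.2 _) fun h0 => h1 ?_
      exact psd_eq_zero (hS s hs).2.2.2.1 h0.symm
    have h3 : (R (root s) (root s)).re = ∑ t ∈ S, r t * (h t (root s) (root s)).re := by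
      rw [hRe]
      simp [LinearMap.sum_apply, Complex.re_sum, LinearMap.smul_apply]
    rw [h3]
    refine Finset.sum_pos' (fun t ht => mul_nonneg (hS t ht).2.2.1.le ((hS t ht).2.2.2.1.2 _)) ?_
    exact ⟨s, hs, mul_pos (hS s hs).2.2.1 h2⟩
  let q : (V ≃ₗ[ℂ] V) → ℝ := fun s => (P (root s) (root s)).re / (R (root s) (root s)).re
  have hselfP : ∀ x, P x x = ((P x x).re : ℂ) := fun x =>
    Complex.ext (by simp) (by simp [psd_self_im hPpsd x])
  have hselfR : ∀ x, R x x = ((R x x).re : ℂ) := fun x =>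
    Complex.ext (by simp) (by simp [psd_self_im hRpsd x])
  -- `P (x, root) = q R (x, root)`
  have hPR : ∀ s ∈ S, ∀ x, P x (root s) = (q s : ℂ) * R x (root s) := fun s hs x => by
    obtain ⟨l, f, rfl, hf⟩ := hdec s hs x
    have hne : ((R (root s) (root s)).re : ℂ) ≠ 0 := by exact_mod_cast (hRpos s hs).ne'
    rw [map_add, map_add, LinearMap.add_apply, LinearMap.add_apply, map_smulₛₗ, map_smulₛₗ,
      LinearMap.smul_apply, LinearMap.smul_apply, (hPf s hs f hf).1, (hRf s hs f hf).1,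
      hselfP (root s), hselfR (root s)]
    simp only [q, smul_eq_mul, add_zero, Complex.ofReal_div]
    field_simp
  have hq1 : ∀ s ∈ S, 1 ≤ q s := fun s hs => by
    have h1 := hH.2 (root s)
    simp only [LinearMap.sub_apply, Complex.sub_re] at h1
    rw [one_le_div (hRpos s hs)]
    linarith
  -- the rank one forms
  have hrank : ∀ s ∈ S, ∃ k : ℂ, ∀ x y, h s x y = k * R x (root s) * R (root s) y := fun s hs => by
    have hne : ((R (root s) (root s)).re : ℂ) ≠ 0 := by exact_mod_cast (hRpos s hs).ne'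
    refine ⟨h s (root s) (root s) / (((R (root s) (root s)).re : ℂ)) ^ 2, fun x y => ?_⟩
    obtain ⟨l, f, rfl, hf⟩ := hdec s hs x
    obtain ⟨m, g, rfl, hg⟩ := hdec s hs y
    have e1 : h s (l • root s + f) (m • root s + g) = conj l * m * h s (root s) (root s) := by
      rw [map_add (h s), LinearMap.add_apply, (hhf s hs f hf _).1, add_zero, map_add,
        (hhf s hs g hg _).2, add_zero]
      simp only [map_smulₛₗ, LinearMap.smul_apply, RingHom.id_apply, smul_eq_mul]; ring
    have e2 : R (l • root s + f) (root s) = conj l * ((R (root s) (root s)).re : ℂ) := by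
      rw [map_add, LinearMap.add_apply, (hRf s hs f hf).1, add_zero, map_smulₛₗ,
        LinearMap.smul_apply, smul_eq_mul, hselfR (root s)]
      simp
    have e3 : R (root s) (m • root s + g) = m * ((R (root s) (root s)).re : ℂ) := by
      rw [map_add, (hRf s hs g hg).2, add_zero, map_smul, smul_eq_mul, hselfR (root s)]
      simp
    rw [e1, e2, e3]
    field_simp
  choose! k hk using hrank
  have hsym : ∀ s ∈ S, ∀ t ∈ S,
      (q s : ℂ) * R (root s) (root t) = (q t : ℂ) * R (root s) (root t) := fun s hs t ht => by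
    rw [← hPR t ht (root s), hPpsd.1 (root t) (root s), hPR s hs (root t), map_mul,
      Complex.conj_ofReal, ← hRpsd.1 (root t) (root s)]
  -- the second part of the decomposition
  let Q : Form V := ∑ s ∈ S, ((r s * q s : ℝ) : ℂ) • h s
  have hRapp : ∀ x y, R x y = ∑ s ∈ S, (r s : ℂ) * h s x y := fun x y => by
    conv_lhs => rw [hRe]
    simp [LinearMap.sum_apply, LinearMap.smul_apply]
  have hQapp : ∀ x y, Q x y = ∑ s ∈ S, ((r s : ℂ) * (q s : ℂ)) * h s x y := fun x y => by
    simp [Q, LinearMap.sum_apply, LinearMap.smul_apply]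
  have hPQroot : ∀ t ∈ S, ∀ x, P x (root t) = Q x (root t) := fun t ht x => by
    rw [hPR t ht x, hRapp, hQapp, Finset.mul_sum]
    refine Finset.sum_congr rfl fun s hs => ?_
    rw [hk s hs]
    have := hsym s hs t ht
    linear_combination (-(r s : ℂ) * k s * R x (root s)) * this
  have hPQspan : ∀ u ∈ Submodule.span ℂ {z : V | ∃ s ∈ (S : Set (V ≃ₗ[ℂ] V)), ∃ y, z = s y - y},
      ∀ x, P x u = Q x u := fun u hu => by
    refine Submodule.span_induction ?_ ?_ ?_ ?_ hu
    · rintro z ⟨s, hs, y, rfl⟩ x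
      obtain ⟨c, hc⟩ := hroot s hs y
      rw [hc, map_smul, map_smul, hPQroot s hs x]
    · intro x; simp
    · intro a b _ _ ha hb x; rw [map_add, map_add, ha x, hb x]
    · intro c a _ ha x; rw [map_smul, map_smul, ha x]
  let p : V →ₗ[ℂ] V := avg W
  have hpfix : ∀ s ∈ S, ∀ x, s (p x) = p x := fun s hs x =>
    avg_fixed W (Subgroup.subset_closure hs) x
  have hmem : ∀ x, N • x - p x ∈
      Submodule.span ℂ {z : V | ∃ s ∈ (S : Set (V ≃ₗ[ℂ] V)), ∃ y, z = s y - y} := fun x => by
    have : N • x - p x = -∑ w : W, ((w : V ≃ₗ[ℂ] V) x - x) := by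
      rw [Finset.sum_sub_distrib, Finset.sum_const, Finset.card_univ, ← avg_apply W x]
      simp only [p, hN, neg_sub]
      rw [Nat.cast_smul_eq_nsmul]
    rw [this]
    exact Submodule.neg_mem _ (Submodule.sum_mem _ fun w _ => sub_mem_span w.2 x)
  have hQp : ∀ x y, Q (p x) y = 0 ∧ Q y (p x) = 0 := fun x y => by
    constructor
    · rw [hQapp]
      exact Finset.sum_eq_zero fun s hs => by rw [(hhf s hs _ (hpfix s hs x) y).1, mul_zero]
    · rw [hQapp]
      exact Finset.sum_eq_zero fun s hs => by rw [(hhf s hs _ (hpfix s hs x) y).2, mul_zero]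
  have hPp : ∀ x y, P (p x) (p y) = N * P (p x) y := fun x y => cross hPW x y
  have hmain : ∀ x y, P x y = N⁻¹ * N⁻¹ * P (p x) (p y) + Q x y := fun x y => by
    have h1 : P x (N • y - p y) = Q x (N • y - p y) := hPQspan _ (hmem y) x
    rw [map_sub, map_smul, map_sub, map_smul, (hQp y x).2, sub_zero, smul_eq_mul,
      smul_eq_mul] at h1
    have h2 : P x (p y) = N⁻¹ * P (p x) (p y) := by
      have h3 := hPp y x
      have h4 := congrArg conj h3
      rw [map_mul, ← hPpsd.1 (p y) x, ← hPpsd.1 (p y) (p x)] at h4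
      have h5 : conj N = N := by rw [hN]; simp
      rw [h5] at h4
      rw [h4]; field_simp
    have h6 : N * P x y = N⁻¹ * P (p x) (p y) + N * Q x y := by
      rw [← h2]; linear_combination h1
    have h7 : P x y = N⁻¹ * (N * P x y) := by field_simp
    rw [h7, h6]; field_simp
  -- the pull back forms
  obtain ⟨n, a, F, hF, hPe⟩ := hP
  let pull : Form V → Form V := fun A =>
    LinearMap.mk₂'ₛₗ (starRingEnd ℂ) (RingHom.id ℂ) (fun x y => A (p x) (p y))
      (by intros; simp) (by intros; simp) (by intros; simp) (by intros; simp)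
  have hpull : ∀ A x y, pull A x y = A (p x) (p y) := fun A x y => rfl
  have hfinal : P - R = (∑ j, ((a j * ((Fintype.card W : ℝ)⁻¹ * (Fintype.card W : ℝ)⁻¹) : ℝ) : ℂ) •
      pull (F j)) + ∑ s ∈ S, ((r s * (q s - 1) : ℝ) : ℂ) • h s := by
    ext x y
    simp only [LinearMap.sub_apply, LinearMap.add_apply, LinearMap.sum_apply,
      LinearMap.smul_apply, smul_eq_mul, hpull]
    rw [hmain x y, hRapp, hQapp]
    have e1 : N⁻¹ * N⁻¹ * P (p x) (p y) = ∑ j, ((a j * ((Fintype.card W : ℝ)⁻¹ *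
        (Fintype.card W : ℝ)⁻¹) : ℝ) : ℂ) * F j (p x) (p y) := by
      conv_lhs => rw [hPe]
      simp only [LinearMap.sum_apply, LinearMap.smul_apply, smul_eq_mul, Finset.mul_sum]
      refine Finset.sum_congr rfl fun j _ => ?_
      push_cast
      rw [hN]; ring
    rw [e1, add_sub_assoc, ← Finset.sum_sub_distrib]
    congr 1
    refine Finset.sum_congr rfl fun s _ => ?_
    push_cast; ring
  rw [hfinal]
  refine isEff_add (isEff_sum _ _ fun j _ => isEff_smul (isEff_of ⟨?_, ?_⟩ ?_) ?_)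
    (isEff_sum _ _ fun s hs => isEff_smul
      (isEff_of (hS s hs).2.2.2.1 (hS s hs).2.2.2.2.1) ?_)
  · intro x y
    rw [hpull, hpull]; exact (hF j).2.1.1 _ _
  · intro x
    rw [hpull]; exact (hF j).2.1.2 _
  · intro x hx y hy
    rw [hpull]
    exact (hF j).2.2 _ (avg_mem W hWL hx) _ (avg_mem W hWL hy)
  · exact mul_nonneg (hF j).1 (by positivity)
  · exact mul_nonneg (hS s hs).2.2.1.le (by linarith [hq1 s hs])

end Pool.Agent.Results.MP_66b48b_ag.AbelianQuotients
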