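import Pool.Agent.WNP.ASM

namespace Pool.Agent.Results.MP_66b48b_ag.ConicBundles

open WNV WNP

/-- Weak non-vanishing on projective normal varieties `X` which are birational to a conic bundle
over `Y` (the function field `F` of `X` is the function field of the conic `a u² + b v² = 1` over
the function field `K` of `Y`), if `K_Y + B_Y` is `ℝ`-linearly effective; this holds for example
if `κ(Y) ≥ 0`. Log canonicity of `(X, Δ)` is needed only at the valuations which are trivial on
`K`. -/
theorem result {c N : ℕ} {K F : Type} [Field K] [Algebra ℂ K] [Field F] [Algebra ℂ F]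
    [Algebra K F] [IsScalarTower ℂ K F] (y : Fin c → K) (hy : IsTranscendenceBasis ℂ y)
    (a b : K) (u v : F) (hF : IsConic a b u v) (x : Fin (N + 1) → F) (hx : ∀ j, x j ≠ 0)
    (hn : IsNormalModel x) (KX Δ : DVal F → ℝ) (hK : IsCanonical x (cform y u) KX)
    (hΔ : IsBoundary x Δ) (hB : IsBaseEff x y Δ) (hC : IsRCartier x (KX + Δ))
    (hlc : ∀ E : DVal F, (∀ k : K, E (algebraMap K F k) = 0) →
      IsLcAt x (cform y u) (KX + Δ) E)
    (hps : IsPsef x (KX + Δ)) : IsLinEff x (KX + Δ) :=
  conic_final y hy a b u v hF x hx hn KX Δ hK hΔ hB hC hlc hps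

end Pool.Agent.Results.MP_66b48b_ag.ConicBundles
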