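import Pool.Agent.WPB.FIN

namespace Pool.Agent.Results.MP_66b48b_ag.ProjectiveBundles

open WNV WPB

/-- Weak non-vanishing on normal projective varieties `X` with general fibre `P^r` over a base `Y`
(function field `K`): `F = K(t_1,…,t_r)` is the function field of `X`, the homogeneous coordinates
of `X` are forms over `K` without a common zero in `P^r` (up to a common factor), the prime
divisors of `P^r` over `K` are prime divisors of `X`, and the other prime divisors of `X` are
linear, for example `X = P(E)` for a vector bundle `E` on `Y`. Moreover `K_Y + B_Y` is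
`ℝ`-linearly effective; this holds for example if `κ(Y) ≥ 0`. Log canonicity of `(X, Δ)` is needed
only at the valuations which are trivial on `K`, that is on the generic fibre. -/
theorem result {c r N : ℕ} {K F : Type} [Field K] [Algebra ℂ K] [Field F] [Algebra ℂ F]
    [Algebra K F] [IsScalarTower ℂ K F]
    [Algebra (MvPolynomial (Fin r) K) F] [IsScalarTower K (MvPolynomial (Fin r) K) F]
    [IsFractionRing (MvPolynomial (Fin r) K) F] (hr : 0 < r)
    (y : Fin c → K) (hy : IsTranscendenceBasis ℂ y)
    (x : Fin (N + 1) → F) (hx : IsProjModel r K x) (_hn : IsNormalModel x)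
    (hfib : ∀ E : DVal F, IsFibrePrime r K E → ∃ i, IsPrimeOf (chart x i) E)
    (hlin : ∀ (i : Fin (N + 1)) (E : DVal F), IsPrimeOf (chart x i) E →
      (∃ a : K, E (algebraMap K F a) ≠ 0) → IsLinear r K E)
    (KX Δ : DVal F → ℝ) (hK : IsCanonical x (tform r F y) KX) (hΔ : IsBoundary x Δ)
    (hB : IsBaseEff x y Δ) (hC : IsRCartier x (KX + Δ))
    (hlc : ∀ E : DVal F, (∀ a : K, E (algebraMap K F a) = 0) →
      IsLcAt x (tform r F y) (KX + Δ) E)
    (hps : IsPsef x (KX + Δ)) : IsLinEff x (KX + Δ) :=
  final hr y hy x hx hfib hlin KX Δ hK hΔ hB hC hlc hps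

end Pool.Agent.Results.MP_66b48b_ag.ProjectiveBundles
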