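import Pool.Agent.WNV.ASD

namespace Pool.Agent.Results.MP_66b48b_ag.TVarieties

open WNV

/-- Weak non-vanishing on projective normal varieties `X` (function field `F = K(t_1,…,t_r)`,
homogeneous coordinates `x_j = a_j t^{m_j}`) with an action of an `r`-dimensional torus and
rational quotient `Y` (function field `K`) such that `K_Y + B_Y` is `ℝ`-linearly effective; this
holds for example if `κ(Y) ≥ 0`. Log canonicity of `(X, Δ)` is needed only at the torus invariant
valuations which are trivial on `K`. -/
theorem result {c r N : ℕ} {K F : Type} [Field K] [Algebra ℂ K] [Field F] [Algebra ℂ F]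
    [Algebra K F] [IsScalarTower ℂ K F]
    [Algebra (MvPolynomial (Fin r) K) F] [IsScalarTower K (MvPolynomial (Fin r) K) F]
    [IsFractionRing (MvPolynomial (Fin r) K) F]
    (y : Fin c → K) (hy : IsTranscendenceBasis ℂ y)
    (x : Fin (N + 1) → F) (hx : IsHomogModel r K x) (hn : IsNormalModel x)
    (KX Δ : DVal F → ℝ) (hK : IsCanonical x (tform r F y) KX) (hΔ : IsBoundary x Δ)
    (hB : IsBaseEff x y Δ) (hC : IsRCartier x (KX + Δ))
    (hlc : ∀ E : DVal F, IsToric r K E → IsLcAt x (tform r F y) (KX + Δ) E)
    (hps : IsPsef x (KX + Δ)) : IsLinEff x (KX + Δ) :=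
  weak_nonvanishing_final y hy x hx hn KX Δ hK hΔ hB hC hlc hps

end Pool.Agent.Results.MP_66b48b_ag.TVarieties
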